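import Mathlib
import Pool.Agent.Helper35.HG.StA
import Pool.Agent.Helper86.HC.M_INA

/-!
Project HG (MP_925021_gt), module INN: initial values, every codimension.
-/

set_option autoImplicit false

namespace Helper25.HG

open Helper35.HG Helper35.HC Helper35.HSF Helper35.MS Helper35.PI Helper35.PI2 Helper32.CL
open Helper86.HC
open Matrix BigOperators

theorem inn_frame {n N m : ℕ} {A : Fin n → Fin n → EE N} {H : Fin m → Fin n → Fin n → ℝ} {r : ℝ}
    {e : Fin m → EE N} {x₀ : EE N} (h : NFm A H r e x₀) (c : Fin n → ℝ) (hc : ∑ i, c i ^ 2 = 1) :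
    bilV A c c + r • x₀ = ∑ α, bil (H α) c c • e α := by
  have e1 : bilV A c c = (∑ i, ∑ j, (c i * c j) • ∑ α, H α i j • e α)
      - ∑ i, ∑ j, ((c i * c j) * (if i = j then r else 0)) • x₀ := by
    unfold bilV
    rw [h.eq]
    simp only [smul_sub, Finset.sum_sub_distrib, smul_smul]
  have e2 : (∑ i, ∑ j, ((c i * c j) * (if i = j then r else 0)) • x₀) = r • x₀ := by
    have e3 : ∀ i : Fin n, ∑ j, ((c i * c j) * (if i = j then r else 0)) • x₀
        = (c i ^ 2) • (r • x₀) := by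
      intro i
      rw [Finset.sum_eq_single i]
      · rw [if_pos rfl, smul_smul, pow_two]
      · intro j _ hj
        rw [if_neg (Ne.symm hj), mul_zero, zero_smul]
      · simp
    rw [Finset.sum_congr rfl fun i _ => e3 i, ← Finset.sum_smul, hc, one_smul]
  have e4 : (∑ i, ∑ j, (c i * c j) • ∑ α, H α i j • e α) = ∑ α, bil (H α) c c • e α := by
    simp only [Finset.smul_sum, smul_smul]
    have e5 : ∀ i : Fin n, (∑ j, ∑ α, (c i * c j * H α i j) • e α)
        = ∑ α, (∑ j, c i * c j * H α i j) • e α := by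
      intro i
      rw [Finset.sum_comm]
      exact Finset.sum_congr rfl fun α _ => (Finset.sum_smul).symm
    rw [Finset.sum_congr rfl fun i _ => e5 i, Finset.sum_comm]
    refine Finset.sum_congr rfl fun α _ => ?_
    rw [← Finset.sum_smul]
    congr 1
    unfold bil
    exact Finset.sum_congr rfl fun i _ => Finset.sum_congr rfl fun j _ => mul_comm _ _
  rw [e1, e2, e4, sub_add_cancel]

theorem inn_norm {N m : ℕ} {e : Fin m → EE N} (h : Orthonormal ℝ e) (a : Fin m → ℝ) :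
    ‖∑ α, a α • e α‖ ^ 2 = ∑ α, a α ^ 2 := by
  rw [← real_inner_self_eq_norm_sq, h.inner_sum]
  simp [pow_two]

theorem inn_key {n m : ℕ} (hn : 1 ≤ n) (H : Fin m → Fin n → Fin n → ℝ) (α0 : Fin m)
    (hX : SymS (H α0)) (t : ℝ)
    (h : ∀ c : Fin n → ℝ, ∑ i, c i ^ 2 = 1 → ∑ α, bil (H α) c c ^ 2 ≤ t) :
    ip0 (H α0) (H α0) + n * ∑ α, mt (H α) ^ 2 ≤ n * t := by
  have hM : (Matrix.of (H α0)).IsHermitian := by
    ext i j
    simp [hX i j]
  obtain ⟨O, l, h1, h2, h3⟩ := exists_diag (Matrix.of (H α0)) hM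
  have hn0 : (0 : ℝ) < n := by exact_mod_cast hn
  have hunit : ∀ a : Fin n, ∑ k, (O k a) ^ 2 = 1 := by
    intro a
    have := congrFun (congrFun h1 a) a
    simpa [Matrix.mul_apply, Matrix.one_apply, pow_two] using this
  have hle : ∀ a : Fin n, ∑ α, (Oᵀ * Matrix.of (H α) * O) a a ^ 2 ≤ t := by
    intro a
    have h4 := h (fun k => O k a) (hunit a)
    simp only [bil_col] at h4
    exact h4
  have hsum : ∑ α, ∑ a : Fin n, (Oᵀ * Matrix.of (H α) * O) a a ^ 2 ≤ n * t := by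
    rw [Finset.sum_comm]
    calc ∑ a : Fin n, ∑ α, (Oᵀ * Matrix.of (H α) * O) a a ^ 2 ≤ ∑ _a : Fin n, t :=
          Finset.sum_le_sum fun a _ => hle a
      _ = n * t := by simp
  have hl : ∑ a, (Oᵀ * Matrix.of (H α0) * O) a a ^ 2 = ∑ i, ∑ j, H α0 i j ^ 2 := by
    have e := fr_conj (Matrix.of (H α0)) O h2
    simp only [Matrix.of_apply] at e
    rw [← e]
    refine Finset.sum_congr rfl fun i _ => ?_
    rw [Finset.sum_eq_single i]
    · intro j _ hj
      have : (Oᵀ * Matrix.of (H α0) * O) i j = 0 := by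
        rw [h3]
        exact Matrix.diagonal_apply_ne _ hj.symm
      rw [show (Oᵀ * Matrix.of (fun i j => H α0 i j) * O) i j = 0 from this]
      norm_num
    · simp
  have hcs : ∀ α, (n : ℝ) * mt (H α) ^ 2 ≤ ∑ a, (Oᵀ * Matrix.of (H α) * O) a a ^ 2 := by
    intro α
    have htr : ∑ a, (Oᵀ * Matrix.of (H α) * O) a a = n * mt (H α) := by
      have e : (Oᵀ * Matrix.of (H α) * O).trace = (Matrix.of (H α)).trace := by
        rw [Matrix.mul_assoc, Matrix.trace_mul_comm, Matrix.mul_assoc, h2, Matrix.mul_one]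
      have e2 : ∑ a, (Oᵀ * Matrix.of (H α) * O) a a = (Oᵀ * Matrix.of (H α) * O).trace := rfl
      rw [e2, e]
      unfold Helper35.HC.mt
      simp only [Matrix.trace, Matrix.diag_apply, Matrix.of_apply]
      field_simp
    have hc := sq_sum_le_card_mul_sum_sq (s := (Finset.univ : Finset (Fin n)))
      (f := fun a => (Oᵀ * Matrix.of (H α) * O) a a)
    have hc' : (∑ a, (Oᵀ * Matrix.of (H α) * O) a a) ^ 2
        ≤ n * ∑ a, (Oᵀ * Matrix.of (H α) * O) a a ^ 2 := by simpa using hc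
    rw [htr] at hc'
    have h5 : (n : ℝ) * (n * mt (H α) ^ 2) ≤ n * ∑ a, (Oᵀ * Matrix.of (H α) * O) a a ^ 2 := by
      calc (n : ℝ) * (n * mt (H α) ^ 2) = (n * mt (H α)) ^ 2 := by ring
        _ ≤ _ := hc'
    exact le_of_mul_le_mul_left h5 hn0
  have hα : ∀ α, (n : ℝ) * mt (H α) ^ 2 + (if α = α0 then ip0 (H α0) (H α0) else 0)
      ≤ ∑ a, (Oᵀ * Matrix.of (H α) * O) a a ^ 2 := by
    intro α
    by_cases hh : α = α0
    · subst hh
      rw [if_pos rfl, hl, sq_ip0 hn]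
      linarith
    · rw [if_neg hh, add_zero]
      exact hcs α
  have hfin := Finset.sum_le_sum (s := (Finset.univ : Finset (Fin m))) fun α _ => hα α
  rw [Finset.sum_add_distrib, Finset.sum_ite_eq', if_pos (Finset.mem_univ _), ← Finset.mul_sum]
    at hfin
  linarith

theorem inn_pq {n m : ℕ} (H : Fin m → Fin n → Fin n → ℝ) (hH : ∀ α, SymS (H α)) (t : ℝ)
    (h : ∀ c : Fin n → ℝ, ∑ i, c i ^ 2 = 1 → ∑ α, bil (H α) c c ^ 2 ≤ t)
    (P Q : Fin n → ℝ) (hop : OP P Q) : ∑ α, bil (H α) P Q ^ 2 ≤ t := by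
  obtain ⟨hP, hQ, hPQ⟩ := hop
  set s : ℝ := Real.sqrt 2 / 2 with hs
  have hs2 : s ^ 2 = 1 / 2 := half_sq
  have hunit : ∀ e : ℝ, e ^ 2 = 1 → ∑ i, (s * (P i + e * Q i)) ^ 2 = 1 := by
    intro e he
    have e1 : ∀ i, (s * (P i + e * Q i)) ^ 2
        = s ^ 2 * P i ^ 2 + s ^ 2 * e ^ 2 * Q i ^ 2 + 2 * s ^ 2 * e * (P i * Q i) := by
      intro i; ring
    simp_rw [e1, Finset.sum_add_distrib, ← Finset.mul_sum]
    rw [hP, hQ, hPQ, he, hs2]
    norm_num
  have h1 := h _ (hunit 1 (by norm_num))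
  have h2 := h _ (hunit (-1) (by norm_num))
  have h3 : ∀ α, 2 * bil (H α) P Q ^ 2 ≤
      bil (H α) (fun i => s * (P i + 1 * Q i)) (fun i => s * (P i + 1 * Q i)) ^ 2 +
      bil (H α) (fun i => s * (P i + -1 * Q i)) (fun i => s * (P i + -1 * Q i)) ^ 2 := by
    intro α
    rw [bil_comb (H α) (hH α), bil_comb (H α) (hH α), hs2]
    nlinarith [sq_nonneg (bil (H α) P P + bil (H α) Q Q)]
  have h4 := Finset.sum_le_sum (s := (Finset.univ : Finset (Fin m))) fun α _ => h3 α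
  rw [Finset.sum_add_distrib, ← Finset.mul_sum] at h4
  linarith

theorem hINN (hFRM : StFRM) (hSQF : StSQF) : StINN := by
  intro n N k hN hn A r L x₀ hA τ hun x hx
  have hr : 0 < r := hA.r0
  have hn0 : (0 : ℝ) < n := by
    have : 0 < n := by omega
    exact_mod_cast this
  obtain ⟨hF1, e', hNF', hU', -, -⟩ := hFRM n N k hN (by omega) A r L x₀ hA
  have main : ∀ e : Fin (k + 2) → EE N, NFm A (fun α => kn A (e α)) r e x₀ →
      0 ≤ x ∧ (∀ α, ip0 (kn A (e α)) (kn A (e α)) ≤ n * ((τ - x) * r)) ∧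
      thA2 A ≤ (k + 2) * (n * ((τ - x) * r)) ∧
      (∀ α, (inner ℝ (Hv A) (e α) : ℝ) ^ 2 / (n ^ 2 * r) ≤ x) ∧
      ∀ P Q, OP P Q → ∑ α, bil (kn A (e α)) P Q ^ 2 ≤ τ * r := by
    intro e hNF
    obtain ⟨-, hH, hYY, hth, -, -⟩ := hSQF n N (k + 2) (by omega) A _ r e x₀ hNF _ _ rfl rfl
    have hb : ∀ c : Fin n → ℝ, ∑ i, c i ^ 2 = 1 → ∑ α, bil (kn A (e α)) c c ^ 2 ≤ τ * r := by
      intro c hc
      rw [← inn_norm hNF.on, ← inn_frame hNF c hc]
      exact hun c hc
    have hxr : x * r = ∑ α, mt (kn A (e α)) ^ 2 := by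
      rw [hx, hYY]
      field_simp
      ring
    have hx0 : 0 ≤ x := by
      have : 0 ≤ x * r := by
        rw [hxr]
        exact Finset.sum_nonneg fun α _ => sq_nonneg _
      exact nonneg_of_mul_nonneg_left this hr
    have hip : ∀ α, ip0 (kn A (e α)) (kn A (e α)) ≤ n * ((τ - x) * r) := by
      intro α
      have h1 := inn_key (by omega) (fun α => kn A (e α)) α (hNF.sy α) _ hb
      have h2 : n * ((τ - x) * r) = n * (τ * r) - n * ∑ α, mt (kn A (e α)) ^ 2 := by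
        rw [← hxr]; ring
      rw [h2]
      linarith
    refine ⟨hx0, hip, ?_, ?_, inn_pq _ hNF.sy _ hb⟩
    · rw [hth]
      calc ∑ α, ip0 (kn A (e α)) (kn A (e α)) ≤ ∑ _α : Fin (k + 2), n * ((τ - x) * r) :=
            Finset.sum_le_sum fun α _ => hip α
        _ = _ := by simp
    · intro α
      rw [hH α]
      have h1 : mt (kn A (e α)) ^ 2 ≤ x * r := by
        rw [hxr]
        exact Finset.single_le_sum (f := fun α => mt (kn A (e α)) ^ 2)
          (fun _ _ => sq_nonneg _) (Finset.mem_univ α)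
      rw [div_le_iff₀ (by positivity)]
      calc (n * mt (kn A (e α))) ^ 2 = n ^ 2 * mt (kn A (e α)) ^ 2 := by ring
        _ ≤ n ^ 2 * (x * r) := mul_le_mul_of_nonneg_left h1 (by positivity)
        _ = x * (n ^ 2 * r) := by ring
  obtain ⟨hx0, hip, hth, -, -⟩ := main e' hNF'
  refine ⟨hx0, ?_, hth, ?_⟩
  · have h1 : 0 ≤ (n : ℝ) * ((τ - x) * r) := le_trans (ip0_nn _) (hip 0)
    have h2 : 0 ≤ (τ - x) * r := nonneg_of_mul_nonneg_right h1 hn0
    have h3 : 0 ≤ τ - x := nonneg_of_mul_nonneg_left h2 hr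
    linarith
  · intro ν hν
    obtain ⟨e, hNF, -, he0, -⟩ := hF1 ν hν
    obtain ⟨-, hip, -, hH, hPQ⟩ := main e hNF
    refine ⟨?_, ?_, ?_⟩
    · have := hip 0
      rwa [he0] at this
    · have := hH 0
      rwa [he0] at this
    · intro P Q hop
      have h1 := hPQ P Q hop
      have h2 : bil (kn A (e 0)) P Q ^ 2 ≤ ∑ α, bil (kn A (e α)) P Q ^ 2 :=
        Finset.single_le_sum (f := fun α => bil (kn A (e α)) P Q ^ 2)
          (fun _ _ => sq_nonneg _) (Finset.mem_univ 0)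
      rw [he0] at h2
      linarith

end Helper25.HG
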