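import Pool.Agent.Helper35.HG.StC
import Pool.Agent.Helper35.HC.StF

set_option autoImplicit false

/-!
Project HG (MP_925021_gt), module MNB: minimum principle for `Y - K₂ θ` under the pinching `PinB`.
-/

namespace Helper25.HG

open Helper35.HG Helper35.HC Helper35.HSF Helper35.MS Helper35.PI Helper35.PI2 Helper32.CL
open scoped ContDiff Manifold Topology ENNReal BigOperators
open MeasureTheory Set Filter

/-- the test function `1 - v Z`, `v(t) = d - c t` -/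
private noncomputable def wfn {M : Type} (Z : M → ℝ → ℝ) (d c : ℝ) (q : M) (t : ℝ) : ℝ :=
  (-1) * ((d - c * t) * Z q t) + 1 * 1

private theorem wfn_facts (hHTR : StHTR) {n N : ℕ} {M : Type} [TopologicalSpace M]
    [ChartedSpace (EE n) M] [IsManifold (𝓡 n) ∞ M] {J : Set ℝ} {F : M → ℝ → EE N}
    (hI : IsImmJ (n := n) J F) {Z : M → ℝ → ℝ} (sZ : SmJ n J Z) (d c : ℝ) :
    SmJ n J (wfn Z d c) ∧ ∀ q, ∀ t ∈ J,
      htN n F (wfn Z d c) q t = -((d - c * t) * htN n F Z q t) + c * Z q t := by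
  obtain ⟨-, -, -, p3⟩ := hHTR n N M J F hI Z Z sZ sZ
  have cv : ContDiffOn ℝ ∞ (fun t : ℝ => d - c * t) J :=
    (contDiff_const.sub (contDiff_const.mul contDiff_id)).contDiffOn
  have c1 : ContDiffOn ℝ ∞ (fun _ : ℝ => (1 : ℝ)) J := contDiff_const.contDiffOn
  obtain ⟨v1, v2⟩ := p3 _ cv
  obtain ⟨o1, o2⟩ := p3 _ c1
  obtain ⟨⟨r1, r2⟩, -, -, -⟩ := hHTR n N M J F hI _ _ v1 sZ
  obtain ⟨-, l1, -, -⟩ := hHTR n N M J F hI _ _ r1 o1
  obtain ⟨l2, l3⟩ := l1 (-1) 1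
  refine ⟨l2, fun q t ht => ?_⟩
  have e1 := (l3 q t ht).2
  rw [(r2 q t ht).2, (v2 q t ht).1, (v2 q t ht).2, (o2 q t ht).2] at e1
  have e2 : htN n F (wfn Z d c) q t
      = htN n F (fun q t => -1 * ((d - c * t) * Z q t) + 1 * 1) q t := rfl
  have e3 : deriv (fun t : ℝ => d - c * t) t = -c := by
    have : HasDerivAt (fun t : ℝ => d - c * t) (-(c * 1)) t :=
      ((hasDerivAt_id t).const_mul c).const_sub d
    rw [this.deriv, mul_one]
  rw [e2, e1, e3, inner_zero_left, deriv_const]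
  ring

/-- `htN Z̃ ≥ (2/n) Z̃²` -/
private theorem alg_ht (n K Y θ e G R a w δ Zt hY hθ : ℝ) (hn : 0 < n) (hK : 0 ≤ K)
    (hδ : 0 < δ) (hY0 : 0 ≤ Y) (ha : 0 ≤ a) (hθ0 : 0 ≤ θ) (he : e ≤ K * G) (hw : Y / n ≤ w)
    (h1 : hθ = -2 * G + 2 * R) (h2 : hY = -2 * e + 2 * w * Y)
    (h3 : R - θ * w ≤ -(δ * Y * a)) (hZ : Zt = Y - K * θ) (hZ0 : 0 ≤ Zt) :
    2 / n * Zt ^ 2 ≤ hY - K * hθ := by
  have hR : R ≤ θ * w := by
    have : 0 ≤ δ * Y * a := by positivity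
    linarith
  have hKR : K * R ≤ K * (θ * w) := mul_le_mul_of_nonneg_left hR hK
  have hYZ : Zt ≤ Y := by
    have : 0 ≤ K * θ := mul_nonneg hK hθ0
    linarith
  have hwZ : Y / n * Zt ≤ w * Zt := mul_le_mul_of_nonneg_right hw hZ0
  have hZZ : Zt / n * Zt ≤ Y / n * Zt :=
    mul_le_mul_of_nonneg_right ((div_le_div_iff_of_pos_right hn).2 hYZ) hZ0
  have e1 : 2 / n * Zt ^ 2 = 2 * (Zt / n * Zt) := by ring
  have e2 : w * Zt = w * Y - K * (θ * w) := by rw [hZ]; ring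
  rw [e1, h1, h2]
  linarith [show K * (-2 * G + 2 * R) = -2 * (K * G) + 2 * (K * R) by ring]

/-- the final inequality at a zero -/
private theorem alg_zero (v Zt H x m : ℝ) (hm : 0 < m) (hx : x < 1) (hv : 0 ≤ v)
    (hvZ : v * Zt = 1) (hZ0 : 0 < Zt) (hH : m * Zt ^ 2 ≤ H) : -(v * H) + x * m * Zt < 0 := by
  have h1 : v * (m * Zt ^ 2) ≤ v * H := mul_le_mul_of_nonneg_left hH hv
  have h2 : v * (m * Zt ^ 2) = m * Zt * (v * Zt) := by ring
  rw [h2, hvZ] at h1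
  have h3 : 0 < m * Zt := mul_pos hm hZ0
  have h4 : x * (m * Zt) < 1 * (m * Zt) := mul_lt_mul_of_pos_right hx h3
  linarith [show x * m * Zt = x * (m * Zt) by ring]

private theorem core (hPKB : StPKB) (hFZP : StFZP) (hHTR : StHTR) (hSMF : StSMF) (n : ℕ)
    (hn : 2 ≤ n) (N : ℕ) (M : Type) [TopologicalSpace M] [T2Space M]
    [CompactSpace M] [Nonempty M] [ChartedSpace (EE n) M] [IsManifold (𝓡 n) ∞ M]
    (T : ℝ) (F : M → ℝ → EE N) (ts κ₀ δ C₀ : ℝ) (hD : PDaB n T F ts κ₀ δ C₀)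
    (t₀ : ℝ) (ht₀ : t₀ ∈ Ico ts T) (z₀ : ℝ) (hz : 0 < z₀) (hq : ∀ q, z₀ ≤ ZT n F q t₀)
    (x : ℝ) (hx0 : 0 < x) (hx1 : x < 1) (hxκ : κ₀ ≤ x * z₀) (t₂ : ℝ) (ht₂ : t₂ ∈ Ico t₀ T)
    (hv : 0 ≤ 1 / (x * z₀) - x * (2 / n) * (t₂ - t₀)) (q : M) :
    1 < (1 / (x * z₀) - x * (2 / n) * (t₂ - t₀)) * ZT n F q t₂ := by
  have hfl := hD.fl
  have hI := hfl.toIsImmJ
  have hn0 : (0 : ℝ) < n := by
    have : 0 < n := by omega
    exact_mod_cast this
  have hn1 : (0 : ℝ) < (n : ℝ) - 1 := by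
    have : (2 : ℝ) ≤ n := by exact_mod_cast hn
    linarith
  have hK : 0 ≤ (n : ℝ) * (n + 2) / (2 * ((n : ℝ) - 1)) := by positivity
  obtain ⟨-, -, -, sY, sθ, -⟩ := hSMF n N M (Ioo 0 T) F hI
  obtain ⟨-, lin, -, -⟩ := hHTR n N M (Ioo 0 T) F hI _ _ sY sθ
  obtain ⟨l1, l2⟩ := lin 1 (-((n : ℝ) * (n + 2) / (2 * ((n : ℝ) - 1))))
  have hZeq : ZT n F = fun q t => 1 * ‖HH (n := n) F q t‖ ^ 2 +
      (-((n : ℝ) * (n + 2) / (2 * ((n : ℝ) - 1)))) * thN n F q t := by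
    funext q t
    unfold ZT
    ring
  have sZ : SmJ n (Ioo 0 T) (ZT n F) := by
    rw [hZeq]
    exact l1
  have hZht : ∀ q, ∀ t ∈ Ioo 0 T, htN n F (ZT n F) q t =
      htN n F (fun q t => ‖HH (n := n) F q t‖ ^ 2) q t -
        (n : ℝ) * (n + 2) / (2 * ((n : ℝ) - 1)) * htN n F (thN n F) q t := by
    intro q t ht
    have := (l2 q t ht).2
    rw [← hZeq] at this
    rw [this]
    ring
  have hxz : 0 < x * z₀ := mul_pos hx0 hz
  set c : ℝ := x * (2 / n) with hc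
  have hc0 : 0 < c := by positivity
  set d : ℝ := 1 / (x * z₀) + c * t₀ with hd
  have hvt : ∀ t : ℝ, d - c * t = 1 / (x * z₀) - c * (t - t₀) := by
    intro t
    rw [hd]
    ring
  obtain ⟨su, hu⟩ := wfn_facts hHTR hI sZ d c
  have hJ : ∀ t ∈ Icc t₀ t₂, t ∈ Ioo 0 T := fun t ht =>
    ⟨lt_of_lt_of_le hD.ts0.1 (ht₀.1.trans ht.1), lt_of_le_of_lt ht.2 ht₂.2⟩
  have hfin := hFZP n N M (Ioo 0 T) F hfl (wfn (ZT n F) d c) t₀ t₂ su hJ ?_ ?_ q t₂
    ⟨ht₂.1, le_rfl⟩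
  · unfold wfn at hfin
    rw [hvt] at hfin
    linarith
  · intro q
    unfold wfn
    rw [hvt, sub_self, mul_zero, sub_zero]
    have h1 : 1 < 1 / (x * z₀) * ZT n F q t₀ := by
      rw [one_div, inv_mul_eq_div, lt_div_iff₀ hxz, one_mul]
      have h2 : x * z₀ < 1 * z₀ := mul_lt_mul_of_pos_right hx1 hz
      have h3 := hq q
      linarith
    linarith
  · intro q t ht h0 _ _
    have htI : t ∈ Icc t₀ t₂ := ⟨ht.1.le, ht.2⟩
    have ht' : t ∈ Ico ts T := ⟨ht₀.1.trans ht.1.le, lt_of_le_of_lt ht.2 ht₂.2⟩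
    rw [hu q t (hJ t htI)]
    unfold wfn at h0
    rw [hvt] at h0 ⊢
    have hv1 : 0 ≤ 1 / (x * z₀) - c * (t - t₀) := by
      have : c * (t - t₀) ≤ c * (t₂ - t₀) :=
        mul_le_mul_of_nonneg_left (by linarith [ht.2]) hc0.le
      linarith
    have hv2 : 1 / (x * z₀) - c * (t - t₀) ≤ 1 / (x * z₀) := by
      have : 0 ≤ c * (t - t₀) := mul_nonneg hc0.le (by linarith [ht.1])
      linarith
    have hvZ : (1 / (x * z₀) - c * (t - t₀)) * ZT n F q t = 1 := by linarith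
    have hZ0 : 0 < ZT n F q t := by
      by_contra hneg
      push Not at hneg
      have := mul_nonpos_of_nonneg_of_nonpos hv1 hneg
      linarith
    have hZx : x * z₀ ≤ ZT n F q t := by
      have h1 : (1 / (x * z₀) - c * (t - t₀)) * ZT n F q t ≤ 1 / (x * z₀) * ZT n F q t :=
        mul_le_mul_of_nonneg_right hv2 hZ0.le
      rw [hvZ, one_div, inv_mul_eq_div, le_div_iff₀ hxz, one_mul] at h1
      exact h1
    obtain ⟨G, R, Z, a, w, k1, k2, k3, k4, k5, k6, k7, k8, k9, k10, k11, k12, k13, k14, -, -, -,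
      -, -, -, k15⟩ := hPKB n hn N M T F ts κ₀ δ C₀ hD t ht' q _ _ _ rfl rfl rfl
    have hYZ : ZT n F q t ≤ ‖HH (n := n) F q t‖ ^ 2 := by
      unfold ZT
      have : 0 ≤ (n : ℝ) * (n + 2) / (2 * ((n : ℝ) - 1)) * thN n F q t := mul_nonneg hK k4
      linarith
    have k16 := (k15 (by linarith)).2.2
    have hH := alg_ht n _ _ _ _ G R a w δ (ZT n F q t) _ _ hn0 hK hD.δ0 (sq_nonneg _) k2 k4 k7
      k8 k13 k14 k16 rfl hZ0.le
    rw [← hZht q t (hJ t htI)] at hH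
    exact alg_zero _ _ _ x (2 / n) (by positivity) hx1 hv1 hvZ hZ0 hH

theorem hMNB (hPKB : StPKB) (hFZP : StFZP) (hHTR : StHTR) (hSMF : StSMF) : StMNB := by
  intro n hn N M _ _ _ _ _ _ T F ts κ₀ δ C₀ hD t₀ ht₀ z₀ hz hκ hq
  have hn0 : (0 : ℝ) < n := by
    have : 0 < n := by omega
    exact_mod_cast this
  have hT0 : 0 < T - t₀ := by linarith [ht₀.2]
  -- positivity of `v`
  have hpos : ∀ x : ℝ, 0 < x → x < 1 → κ₀ ≤ x * z₀ → ∀ t ∈ Ico t₀ T,
      0 < 1 / (x * z₀) - x * (2 / n) * (t - t₀) := by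
    intro x hx0 hx1 hxκ t ht
    by_contra hneg
    push Not at hneg
    have hxz : 0 < x * z₀ := mul_pos hx0 hz
    have hc : 0 < x * (2 / (n : ℝ)) := by positivity
    obtain ⟨q⟩ := (inferInstance : Nonempty M)
    have hb : 1 / (x * z₀) / (x * (2 / (n : ℝ))) ≤ t - t₀ := by
      rw [div_le_iff₀ hc]
      linarith
    have hb0 : 0 < 1 / (x * z₀) / (x * (2 / (n : ℝ))) := by positivity
    have hv0 : 1 / (x * z₀) - x * (2 / n) *
        (t₀ + 1 / (x * z₀) / (x * (2 / (n : ℝ))) - t₀) = 0 := by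
      rw [add_sub_cancel_left, mul_div_cancel₀ _ hc.ne', sub_self]
    have h1 := core hPKB hFZP hHTR hSMF n hn N M T F ts κ₀ δ C₀ hD t₀ ht₀ z₀ hz hq x hx0 hx1 hxκ
      (t₀ + 1 / (x * z₀) / (x * (2 / (n : ℝ)))) ⟨by linarith, by linarith [ht.2]⟩
      (le_of_eq hv0.symm) q
    rw [hv0, zero_mul] at h1
    linarith
  have hlt : ∀ x : ℝ, 0 < x → x < 1 → κ₀ ≤ x * z₀ → ∀ t ∈ Ico t₀ T, ∀ q,
      x * z₀ < ZT n F q t := by
    intro x hx0 hx1 hxκ t ht q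
    have h1 := hpos x hx0 hx1 hxκ t ht
    have h2 := core hPKB hFZP hHTR hSMF n hn N M T F ts κ₀ δ C₀ hD t₀ ht₀ z₀ hz hq x hx0 hx1 hxκ
      t ht h1.le q
    have hxz : 0 < x * z₀ := mul_pos hx0 hz
    have hZ0 : 0 < ZT n F q t := by
      by_contra hneg
      push Not at hneg
      have := mul_nonpos_of_nonneg_of_nonpos h1.le hneg
      linarith
    have h3 : 0 ≤ x * (2 / n) * (t - t₀) :=
      mul_nonneg (by positivity) (by linarith [ht.1])
    have h4 : (1 / (x * z₀) - x * (2 / n) * (t - t₀)) * ZT n F q t ≤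
        1 / (x * z₀) * ZT n F q t := mul_le_mul_of_nonneg_right (by linarith) hZ0.le
    have h5 : 1 < 1 / (x * z₀) * ZT n F q t := h2.trans_le h4
    rw [one_div, inv_mul_eq_div, lt_div_iff₀ hxz, one_mul] at h5
    exact h5
  have hev : ∀ᶠ x : ℝ in 𝓝[<] 1, 0 < x ∧ x < 1 ∧ κ₀ ≤ x * z₀ := by
    have e1 : ∀ᶠ x : ℝ in 𝓝[<] 1, 0 < x :=
      eventually_nhdsWithin_of_eventually_nhds (lt_mem_nhds one_pos)
    have e2 : ∀ᶠ x : ℝ in 𝓝[<] 1, x < 1 := eventually_mem_nhdsWithin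
    have e3 : ∀ᶠ x : ℝ in 𝓝[<] 1, κ₀ < x * z₀ := by
      refine eventually_nhdsWithin_of_eventually_nhds ?_
      have hcont : Continuous (fun x : ℝ => x * z₀) := continuous_id.mul continuous_const
      exact hcont.continuousAt.eventually (lt_mem_nhds (by simpa using hκ))
    filter_upwards [e1, e2, e3] with x h1 h2 h3
    exact ⟨h1, h2, h3.le⟩
  constructor
  · by_contra hcon
    push Not at hcon
    have e4 : ∀ᶠ x : ℝ in 𝓝[<] 1, 1 < x ^ 3 * (2 / n * (z₀ * (T - t₀))) := by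
      refine eventually_nhdsWithin_of_eventually_nhds ?_
      have hcont : Continuous (fun x : ℝ => x ^ 3 * (2 / n * (z₀ * (T - t₀)))) :=
        (continuous_pow 3).mul continuous_const
      exact hcont.continuousAt.eventually (lt_mem_nhds (by simpa using hcon))
    obtain ⟨x, ⟨h1, h2, h3⟩, h4⟩ := (hev.and e4).exists
    have hxz : 0 < x * z₀ := mul_pos h1 hz
    have h5 := hpos x h1 h2 h3 (t₀ + x * (T - t₀)) ⟨by
      have : 0 ≤ x * (T - t₀) := by positivity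
      linarith, by
      have : x * (T - t₀) < 1 * (T - t₀) := mul_lt_mul_of_pos_right h2 hT0
      linarith⟩
    rw [add_sub_cancel_left, sub_pos, lt_div_iff₀ hxz] at h5
    have h6 : x * (2 / n) * (x * (T - t₀)) * (x * z₀) = x ^ 3 * (2 / n * (z₀ * (T - t₀))) := by
      ring
    rw [h6] at h5
    linarith
  · intro t ht q
    have hcont : Tendsto (fun x : ℝ => x * z₀) (𝓝[<] 1) (𝓝 (1 * z₀)) :=
      ((continuous_id.mul continuous_const).tendsto (1 : ℝ)).mono_left nhdsWithin_le_nhds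
    rw [one_mul] at hcont
    refine le_of_tendsto hcont ?_
    filter_upwards [hev] with x hx
    exact (hlt x hx.1 hx.2.1 hx.2.2 t ht q).le

end Helper25.HG
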