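import Pool.Agent.Helper35.HG.StB

/-!
# Project HG, module SPN : jets of a graph in the shrinking sphere, every codimension
-/

set_option autoImplicit false

namespace Helper25.HG

open Helper35.HG Helper35.HC Helper35.HSF Helper35.MS Helper35.PI Helper35.PI2 Helper32.CL
open scoped ContDiff Manifold Topology ENNReal BigOperators
open MeasureTheory Set Filter

private theorem two_le_inf : (2 : WithTop ℕ∞) ≤ ((⊤ : ℕ∞) : WithTop ℕ∞) := by
  exact WithTop.coe_le_coe.2 (le_top : (2 : ℕ∞) ≤ ⊤)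

section

variable {n N : ℕ}

private theorem jg_congr {V : Type*} [NormedAddCommGroup V] [NormedSpace ℝ V]
    {φ ψ : EE n × ℝ → V} {z : EE n × ℝ} (h : φ =ᶠ[𝓝 z] ψ) (k : Fin n) :
    jg φ z k = jg ψ z k := by
  unfold jg
  rw [h.fderiv_eq]

private theorem jg_inner {φ ψ : EE n × ℝ → EE N} {z : EE n × ℝ} (hφ : DifferentiableAt ℝ φ z)
    (hψ : DifferentiableAt ℝ ψ z) (k : Fin n) :
    jg (fun z' => (inner ℝ (φ z') (ψ z') : ℝ)) z k =
      inner ℝ (φ z) (jg ψ z k) + inner ℝ (jg φ z k) (ψ z) := by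
  unfold jg
  exact fderiv_inner_apply ℝ hφ hψ _

private theorem jg_time (z : EE n × ℝ) (k : Fin n) :
    jg (fun z' : EE n × ℝ => rr n z'.2) z k = 0 := by
  unfold jg rr
  have h1 : HasFDerivAt (fun z' : EE n × ℝ => 1 - 2 * (n : ℝ) * z'.2)
      (-((2 * (n : ℝ)) • ContinuousLinearMap.snd ℝ (EE n) ℝ)) z :=
    ((hasFDerivAt_snd (𝕜 := ℝ) (p := z)).const_mul (2 * (n : ℝ))).const_sub 1
  rw [h1.fderiv]
  simp

private theorem jg_const {V : Type*} [NormedAddCommGroup V] [NormedSpace ℝ V] (c : V)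
    (z : EE n × ℝ) (k : Fin n) : jg (fun _ : EE n × ℝ => c) z k = 0 := by
  unfold jg
  simp

private theorem ee_inner (i j : Fin n) : (inner ℝ (ee i : EE n) (ee j) : ℝ) =
    if i = j then 1 else 0 := by
  unfold ee
  rw [EuclideanSpace.inner_single_left]
  simp

private theorem ee_sum (v : EE n) : v = ∑ i, v i • ee i := by
  ext j
  simp [ee, Pi.single_apply]

private theorem L_sum {L : EE n →ₗᵢ[ℝ] EE N} {w : EE N} (h : ∀ i, (inner ℝ (L (ee i)) w : ℝ) = 0)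
    (v : EE n) : (inner ℝ (L v) w : ℝ) = 0 := by
  rw [ee_sum v, map_sum, sum_inner]
  refine Finset.sum_eq_zero fun i _ => ?_
  rw [map_smul, real_inner_smul_left, h, mul_zero]

end

theorem hSPN (hG1 : StG1) (hG2 : StG2) (hG7 : StG7) (hG8 : StG8) (hG9 : StG9) (hG10 : StG10)
    (hSM : Helper35.PI.StSM) : StSPN := by
  intro n N hn1 M _ _ _ J F hM p₀ t₀ ht₀ L u θ hC A T hA hT
  have hop : IsOpen J := hM.mcf.op
  have hu := hC.sol
  have hJ : ∀ᶠ z in 𝓝 ((0 : EE n), t₀), z.2 ∈ J := by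
    have h1 : Tendsto (fun z : EE n × ℝ => z.2) (𝓝 ((0 : EE n), t₀)) (𝓝 t₀) := by
      exact (continuous_snd.tendsto ((0 : EE n), t₀))
    exact h1.eventually (hop.mem_nhds ht₀)
  obtain ⟨x₀, hx₀⟩ : ∃ x₀ : EE N, x₀ = F p₀ t₀ := ⟨_, rfl⟩
  obtain ⟨f, hfdef⟩ : ∃ f : EE n × ℝ → EE N, f = fun z => grf (F p₀ t₀) L u z.2 z.1 :=
    ⟨_, rfl⟩
  have hf : ContDiffAt ℝ ∞ f ((0 : EE n), t₀) := by
    rw [hfdef]
    have h1 : ContDiffAt ℝ ∞ (fun z : EE n × ℝ => F p₀ t₀ + L z.1 + u z) ((0 : EE n), t₀) :=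
      (contDiffAt_const.add (L.toContinuousLinearMap.contDiff.contDiffAt.comp ((0 : EE n), t₀)
        contDiffAt_fst)).add hu.smooth
    exact h1
  obtain ⟨g1, g2, g3, g4⟩ := hG1 n N (F p₀ t₀) L u t₀ hu
  rw [← hA] at g1 g3
  rw [← hT] at g2 g4
  have hG2' := hG2 n N (F p₀ t₀) L u t₀ hu
  have hLI : LI (fun y => f (y, ((0 : EE n), t₀).2)) ((0 : EE n), t₀).1 := by
    rw [hfdef]
    exact (hG2'.self_of_nhds).2.2.2.2
  obtain ⟨s1, s2, -, s3, -⟩ := hSM n N f ((0 : EE n), t₀) hf hLI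
  have hf0 : f ((0 : EE n), t₀) = x₀ := by
    rw [hfdef, hx₀]
    simp [grf, hu.u0]
  have v1 : ∀ᶠ z in 𝓝 ((0 : EE n), t₀), ∀ i, jg f z i = L (ee i) + jg u z i := by
    filter_upwards [hG2', s1] with z h1 h2 i
    rw [← h2.2.2.1 i, hfdef]
    exact h1.1 i
  have v2 : ∀ᶠ z in 𝓝 ((0 : EE n), t₀), ∀ i j, jgg f z i j = jgg u z i j := by
    filter_upwards [hG2', s1] with z h1 h2 i j
    rw [← h2.2.2.2.1 i j, hfdef]
    exact h1.2.1 i j
  have v1' : ∀ i, jg f ((0 : EE n), t₀) i = L (ee i) := by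
    intro i
    rw [v1.self_of_nhds i, hu.du0 i, add_zero]
  have v2' : ∀ i j, jgg f ((0 : EE n), t₀) i j = A i j := by
    intro i j
    rw [v2.self_of_nhds i j, hA]
  have v3 : ∀ i j k, jg (fun z' => jgg f z' j k) ((0 : EE n), t₀) i = T i j k := by
    intro i j k
    rw [hT]
    exact jg_congr (v2.mono fun z hz => hz j k) i
  have d0 : ∀ᶠ z in 𝓝 ((0 : EE n), t₀), DifferentiableAt ℝ f z :=
    s1.mono fun z hz => hz.2.1.differentiableAt (by norm_num)
  have d1 : ∀ᶠ z in 𝓝 ((0 : EE n), t₀), ∀ i, DifferentiableAt ℝ (fun z => jg f z i) z := by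
    rw [Filter.eventually_all]
    intro i
    have h1 : ContDiffAt ℝ 1 (fun z => jg f z i) ((0 : EE n), t₀) :=
      (s2 i).of_le (by exact_mod_cast le_top)
    have h2 := h1.eventually (by simp)
    exact h2.mono fun z hz => hz.differentiableAt (by norm_num)
  have d2 : ∀ i j, DifferentiableAt ℝ (fun z => jgg f z i j) ((0 : EE n), t₀) := fun i j =>
    (s3 i j).differentiableAt (by simp)
  -- zeroth order
  have e0 : (fun z => (inner ℝ (f z) (f z) : ℝ)) =ᶠ[𝓝 ((0 : EE n), t₀)]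
      fun z => rr n z.2 := by
    filter_upwards [hC.eq, hJ] with z hz hz2
    rw [real_inner_self_eq_norm_sq, hfdef]
    simp only
    rw [← hz]
    exact hM.sph _ _ hz2
  -- first order
  have e1 : ∀ᶠ z in 𝓝 ((0 : EE n), t₀), ∀ j, (inner ℝ (f z) (jg f z j) : ℝ) = 0 := by
    filter_upwards [e0.eventually_nhds, d0] with z hz hd j
    have h1 := jg_congr hz j
    rw [jg_inner hd hd, jg_time, real_inner_comm (f z) (jg f z j)] at h1
    linarith
  -- second order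
  have e2 : ∀ᶠ z in 𝓝 ((0 : EE n), t₀), ∀ i j,
      (inner ℝ (f z) (jgg f z i j) : ℝ) + inner ℝ (jg f z i) (jg f z j) = 0 := by
    filter_upwards [e1.eventually_nhds, d0, d1] with z hz hd hd1 i j
    have h0 : (fun z => (inner ℝ (f z) (jg f z j) : ℝ)) =ᶠ[𝓝 z] fun _ => (0 : ℝ) :=
      hz.mono fun z' hz' => hz' j
    have h1 := jg_congr h0 i
    rw [jg_inner hd (hd1 j), jg_const] at h1
    exact h1
  -- third order
  have e3 : ∀ i j k, ((inner ℝ (f ((0 : EE n), t₀)) (T k i j) : ℝ) +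
      inner ℝ (jg f ((0 : EE n), t₀) k) (A i j)) +
      ((inner ℝ (jg f ((0 : EE n), t₀) i) (A k j) : ℝ) +
        inner ℝ (A k i) (jg f ((0 : EE n), t₀) j)) = 0 := by
    intro i j k
    have h0 : (fun z => (inner ℝ (f z) (jgg f z i j) : ℝ) + inner ℝ (jg f z i) (jg f z j))
        =ᶠ[𝓝 ((0 : EE n), t₀)] fun _ => (0 : ℝ) := e2.mono fun z' hz' => hz' i j
    have h1 := jg_congr h0 k
    have hd0 := d0.self_of_nhds
    have hd1 := d1.self_of_nhds
    have h2 : jg (fun z => (inner ℝ (f z) (jgg f z i j) : ℝ) + inner ℝ (jg f z i) (jg f z j))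
        ((0 : EE n), t₀) k = jg (fun z => (inner ℝ (f z) (jgg f z i j) : ℝ)) ((0 : EE n), t₀) k +
          jg (fun z => (inner ℝ (jg f z i) (jg f z j) : ℝ)) ((0 : EE n), t₀) k := by
      unfold jg
      have h3 := fderiv_add (hd0.inner ℝ (d2 i j)) ((hd1 i).inner ℝ (hd1 j))
      exact congrArg (fun Λ => Λ (ee k, (0 : ℝ))) h3
    rw [h2, jg_inner hd0 (d2 i j), jg_inner (hd1 i) (hd1 j), jg_const, v3] at h1
    have h4 : ∀ a b, jg (fun z => jg f z b) ((0 : EE n), t₀) a = A a b := fun a b => v2' a b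
    rw [h4, h4, v2'] at h1
    exact h1
  have g3' : ∀ a b (v : EE n), (inner ℝ (L v) (A a b) : ℝ) = 0 := by
    intro a b v
    rw [real_inner_comm]
    exact g3 a b v
  have g4' : ∀ a b c (v : EE n), (inner ℝ (L v) (T a b c) : ℝ) = 0 := by
    intro a b c v
    rw [real_inner_comm]
    exact g4 a b c v
  -- values at the point
  have hρ : 0 < rr n t₀ := hM.r0 t₀ ht₀
  have hnx : ‖F p₀ t₀‖ ^ 2 = rr n t₀ := hM.sph p₀ t₀ ht₀
  have hLx : ∀ v, (inner ℝ (L v) x₀ : ℝ) = 0 := by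
    intro v
    refine L_sum (fun i => ?_) v
    have h1 := e1.self_of_nhds i
    rw [hf0, v1', real_inner_comm] at h1
    exact h1
  have hxA : ∀ i j, (inner ℝ (A i j) x₀ : ℝ) = -(if i = j then 1 else 0) := by
    intro i j
    have h1 := e2.self_of_nhds i j
    rw [hf0, v2', v1', v1', L.inner_map_map, ee_inner, real_inner_comm] at h1
    linarith
  have hxT : ∀ i j k, (inner ℝ (T i j k) x₀ : ℝ) = 0 := by
    intro i j k
    have h1 := e3 j k i
    rw [hf0, v1', v1', v1', g3', g3', g3, real_inner_comm] at h1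
    linarith
  have hHp := hC.hH.self_of_nhds
  simp only [hC.pt] at hHp
  obtain ⟨-, hX0, -⟩ := hG7 n N (F p₀ t₀) L u t₀ hu A T hA hT
  obtain ⟨-, hY0, -⟩ := hG8 n N (F p₀ t₀) L u t₀ hu A T hA hT
  obtain ⟨-, hZ0, -⟩ := hG9 n N (F p₀ t₀) L u t₀ hu A T hA hT
  have hH0 : mcv (grf (F p₀ t₀) L u t₀) 0 = Hv A := by
    rw [hA]
    exact (hG10 n N (F p₀ t₀) L u t₀ hu).1
  have hAA : AA (n := n) F p₀ t₀ = XX A := by
    rw [hHp.2.1]
    exact hX0
  have hHH : HH (n := n) F p₀ t₀ = Hv A := by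
    rw [hHp.1]
    exact hH0
  have hZZ : ZF (n := n) F p₀ t₀ = ZZ A := by
    rw [hHp.2.2]
    exact hZ0
  have hn0 : (0 : ℝ) < n := by
    exact_mod_cast hn1
  have hHx : (inner ℝ (Hv A) x₀ : ℝ) = -n := by
    unfold Hv
    rw [sum_inner]
    simp only [hxA, if_true, Finset.sum_neg_distrib, Finset.sum_const, Finset.card_univ,
      Fintype.card_fin, nsmul_eq_mul, mul_one]
  have hlow : (n : ℝ) ^ 2 ≤ rr n t₀ * ‖HH (n := n) F p₀ t₀‖ ^ 2 := by
    rw [hHH, ← hnx, ← hx₀]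
    have h1 := real_inner_mul_inner_self_le (Hv A) x₀
    rw [hHx, real_inner_self_eq_norm_sq, real_inner_self_eq_norm_sq] at h1
    nlinarith [h1]
  have hsph : SphG (F p₀ t₀) L u t₀ := by
    unfold SphG
    filter_upwards [hJ, e0, e1, s1] with z hz1 hz2 hz3 hz4
    rw [hfdef] at hz2 hz3 hz4
    refine ⟨hM.r0 _ hz1, hz2, fun i => ?_⟩
    have h1 := hz3 i
    rw [← hz4.2.2.1 i] at h1
    exact h1
  have hasp : ASp n A (1 / rr n t₀) L (F p₀ t₀) := by
    refine ⟨g1, by positivity, ?_, ?_, g3, ?_⟩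
    · rw [hnx, one_div_one_div]
    · intro v
      rw [← hx₀]
      exact hLx v
    · intro i j
      rw [← hx₀]
      exact hxA i j
  refine ⟨hasp, g2, ?_, hsph, hAA, hHH, hZZ, ?_, ?_, ?_, hlow⟩
  · intro i j k
    rw [← hx₀]
    exact hxT i j k
  · unfold thN thA2 YY
    rw [hAA, hHH]
  · unfold xN YY
    rw [hHH]
    have hn2 : (n : ℝ) ^ 2 ≠ 0 := by positivity
    field_simp
  · unfold xN
    rw [sub_nonneg, le_div_iff₀ (by positivity)]
    linarith

end Helper25.HG
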